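import Pool.Agent.Helper36.LX.Sheet

/-!
# LX row UP: networks of length at most `.9545 n + .2`
-/

namespace H11ST
namespace LX
namespace UPr
open LG

variable {d n : ℕ}

theorem pr {u v t : ℝ} (hu : |u| ≤ 1) (hv : |v| ≤ 1) (ht : |t| ≤ e0) : u * v * t ≤ e0 := by
  have e : |u * v * t| ≤ e0 := by
    rw [abs_mul, abs_mul]
    have h0 : (0 : ℝ) ≤ e0 := (abs_nonneg _).trans ht
    calc |u| * |v| * |t| ≤ 1 * 1 * e0 :=
          mul_le_mul (mul_le_mul hu hv (abs_nonneg _) zero_le_one) ht (abs_nonneg _) (by norm_num)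
      _ = e0 := by ring
  exact (le_abs_self _).trans e

theorem nsq {p : Fin n → E d} (hp : NO p) {a b c e : Fin n} (hab : a ≠ b) (hac : a ≠ c)
    (hae : a ≠ e) (hbc : b ≠ c) (hbe : b ≠ e) (hce : c ≠ e) {x y z w : ℝ} (hx : |x| ≤ 1)
    (hy : |y| ≤ 1) (hz : |z| ≤ 1) (hw : |w| ≤ 1) :
    ‖x • p a + y • p b + z • p c + w • p e‖ ^ 2 ≤
      x ^ 2 + y ^ 2 + z ^ 2 + w ^ 2 + 12 / 1000000 := by
  have s : ∀ i, inner ℝ (p i) (p i) = (1 : ℝ) := fun i => by
    rw [real_inner_self_eq_norm_sq, hp.nrm i]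
    norm_num
  have E0 : e0 = 1 / 1000000 := rfl
  have h1 := pr hx hy (hp.orth a b hab)
  have h2 := pr hx hz (hp.orth a c hac)
  have h3 := pr hx hw (hp.orth a e hae)
  have h4 := pr hy hz (hp.orth b c hbc)
  have h5 := pr hy hw (hp.orth b e hbe)
  have h6 := pr hz hw (hp.orth c e hce)
  rw [E0] at h1 h2 h3 h4 h5 h6
  rw [← real_inner_self_eq_norm_sq]
  simp only [inner_add_left, inner_add_right, real_inner_smul_left, real_inner_smul_right, s]
  rw [real_inner_comm (p a) (p b), real_inner_comm (p a) (p c), real_inner_comm (p a) (p e),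
    real_inner_comm (p b) (p c), real_inner_comm (p b) (p e), real_inner_comm (p c) (p e)]
  linarith

theorem nle {v : E d} {s : ℝ} (hs : 0 ≤ s) (h : ‖v‖ ^ 2 ≤ s ^ 2) : ‖v‖ ≤ s :=
  (pow_le_pow_iff_left₀ (norm_nonneg _) hs two_ne_zero).1 h

/-- cost seen from `0` -/
noncomputable def C (p : Fin n → E d) (t : BT (Fin n) (E d)) : ℝ :=
  dist 0 (t.pos p) + t.esum p dist

theorem C_leaf {p : Fin n → E d} (hp : NO p) (i : Fin n) : C p (.leaf i : BT (Fin n) (E d)) = 1 := by
  unfold C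
  simp only [BT.pos, BT.esum, add_zero]
  rw [dist_zero_left, hp.nrm]

theorem C_node (p : Fin n → E d) (l r : BT (Fin n) (E d)) : C p (.node 0 l r) = C p l + C p r := by
  unfold C
  simp only [BT.pos, BT.esum, dist_self]
  ring

/-- group of four -/
theorem four {p : Fin n → E d} (hp : NO p) {a b c e : Fin n} (hab : a ≠ b) (hac : a ≠ c)
    (hae : a ≠ e) (hbc : b ≠ c) (hbe : b ≠ e) (hce : c ≠ e) :
    ∃ t : BT (Fin n) (E d), t.ok ∧ t.lv = {a, b, c, e} ∧ C p t ≤ 3816 / 1000 := by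
  refine ⟨.node ((1057 / 10000 : ℝ) • (p a + p b + p c + p e))
    (.node ((2212 / 10000 : ℝ) • (p a + p b) + (747 / 10000 : ℝ) • (p c + p e))
      (.leaf a) (.leaf b))
    (.node ((747 / 10000 : ℝ) • (p a + p b) + (2212 / 10000 : ℝ) • (p c + p e))
      (.leaf c) (.leaf e)), ?_, ?_, ?_⟩
  · simp [BT.ok, BT.lv, hab, hac, hae, hbc, hbe, hce, hab.symm, hac.symm, hae.symm, hbc.symm,
      hbe.symm, hce.symm]
  · ext k
    simp [BT.lv]
    tauto
  · unfold C
    simp only [BT.pos, BT.esum, add_zero]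
    have N : ∀ x y z w : ℝ, |x| ≤ 1 → |y| ≤ 1 → |z| ≤ 1 → |w| ≤ 1 →
        ‖x • p a + y • p b + z • p c + w • p e‖ ^ 2 ≤
          x ^ 2 + y ^ 2 + z ^ 2 + w ^ 2 + 12 / 1000000 := fun x y z w hx hy hz hw =>
      nsq hp hab hac hae hbc hbe hce hx hy hz hw
    have h0 : dist (0 : E d) ((1057 / 10000 : ℝ) • (p a + p b + p c + p e)) ≤
        2115 / 10000 := by
      rw [dist_zero_left]
      refine nle (by norm_num) ?_
      rw [show (1057 / 10000 : ℝ) • (p a + p b + p c + p e) =
        (1057 / 10000 : ℝ) • p a + (1057 / 10000 : ℝ) • p b + (1057 / 10000 : ℝ) • p c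
          + (1057 / 10000 : ℝ) • p e by module]
      refine (N (1057 / 10000) (1057 / 10000) (1057 / 10000) (1057 / 10000) ?_ ?_ ?_ ?_).trans ?_
        <;> norm_num [abs_of_nonneg]
    have h1 : dist ((1057 / 10000 : ℝ) • (p a + p b + p c + p e))
        ((2212 / 10000 : ℝ) • (p a + p b) + (747 / 10000 : ℝ) • (p c + p e)) ≤
        1692 / 10000 := by
      rw [dist_eq_norm]
      refine nle (by norm_num) ?_
      rw [show (1057 / 10000 : ℝ) • (p a + p b + p c + p e) -
        ((2212 / 10000 : ℝ) • (p a + p b) + (747 / 10000 : ℝ) • (p c + p e)) =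
        (1057 / 10000 - 2212 / 10000 : ℝ) • p a + (1057 / 10000 - 2212 / 10000 : ℝ) • p b
          + (1057 / 10000 - 747 / 10000 : ℝ) • p c
          + (1057 / 10000 - 747 / 10000 : ℝ) • p e by module]
      refine (N (1057 / 10000 - 2212 / 10000) (1057 / 10000 - 2212 / 10000)
        (1057 / 10000 - 747 / 10000) (1057 / 10000 - 747 / 10000) ?_ ?_ ?_ ?_).trans ?_
      · rw [abs_le]; norm_num
      · rw [abs_le]; norm_num
      · rw [abs_le]; norm_num
      · rw [abs_le]; norm_num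
      · norm_num
    have h2 : dist ((1057 / 10000 : ℝ) • (p a + p b + p c + p e))
        ((747 / 10000 : ℝ) • (p a + p b) + (2212 / 10000 : ℝ) • (p c + p e)) ≤
        1692 / 10000 := by
      rw [dist_eq_norm]
      refine nle (by norm_num) ?_
      rw [show (1057 / 10000 : ℝ) • (p a + p b + p c + p e) -
        ((747 / 10000 : ℝ) • (p a + p b) + (2212 / 10000 : ℝ) • (p c + p e)) =
        (1057 / 10000 - 747 / 10000 : ℝ) • p a + (1057 / 10000 - 747 / 10000 : ℝ) • p b
          + (1057 / 10000 - 2212 / 10000 : ℝ) • p c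
          + (1057 / 10000 - 2212 / 10000 : ℝ) • p e by module]
      refine (N (1057 / 10000 - 747 / 10000) (1057 / 10000 - 747 / 10000)
        (1057 / 10000 - 2212 / 10000) (1057 / 10000 - 2212 / 10000) ?_ ?_ ?_ ?_).trans ?_
      · rw [abs_le]; norm_num
      · rw [abs_le]; norm_num
      · rw [abs_le]; norm_num
      · rw [abs_le]; norm_num
      · norm_num
    have h3 : dist ((2212 / 10000 : ℝ) • (p a + p b) + (747 / 10000 : ℝ) •
        (p c + p e)) (p a) ≤ 8165 / 10000 := by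
      rw [dist_eq_norm]
      refine nle (by norm_num) ?_
      rw [show (2212 / 10000 : ℝ) • (p a + p b) + (747 / 10000 : ℝ) •
        (p c + p e) - p a = (2212 / 10000 - 1 : ℝ) • p a + (2212 / 10000 : ℝ) • p b
          + (747 / 10000 : ℝ) • p c + (747 / 10000 : ℝ) • p e by module]
      refine (N (2212 / 10000 - 1) (2212 / 10000) (747 / 10000) (747 / 10000)
        ?_ ?_ ?_ ?_).trans ?_
      · rw [abs_le]; norm_num
      · rw [abs_le]; norm_num
      · rw [abs_le]; norm_num
      · rw [abs_le]; norm_num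
      · norm_num
    have h4 : dist ((2212 / 10000 : ℝ) • (p a + p b) + (747 / 10000 : ℝ) •
        (p c + p e)) (p b) ≤ 8165 / 10000 := by
      rw [dist_eq_norm]
      refine nle (by norm_num) ?_
      rw [show (2212 / 10000 : ℝ) • (p a + p b) + (747 / 10000 : ℝ) •
        (p c + p e) - p b = (2212 / 10000 : ℝ) • p a + (2212 / 10000 - 1 : ℝ) • p b
          + (747 / 10000 : ℝ) • p c + (747 / 10000 : ℝ) • p e by module]
      refine (N (2212 / 10000) (2212 / 10000 - 1) (747 / 10000) (747 / 10000)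
        ?_ ?_ ?_ ?_).trans ?_
      · rw [abs_le]; norm_num
      · rw [abs_le]; norm_num
      · rw [abs_le]; norm_num
      · rw [abs_le]; norm_num
      · norm_num
    have h5 : dist ((747 / 10000 : ℝ) • (p a + p b) + (2212 / 10000 : ℝ) •
        (p c + p e)) (p c) ≤ 8165 / 10000 := by
      rw [dist_eq_norm]
      refine nle (by norm_num) ?_
      rw [show (747 / 10000 : ℝ) • (p a + p b) + (2212 / 10000 : ℝ) •
        (p c + p e) - p c = (747 / 10000 : ℝ) • p a + (747 / 10000 : ℝ) • p b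
          + (2212 / 10000 - 1 : ℝ) • p c + (2212 / 10000 : ℝ) • p e by module]
      refine (N (747 / 10000) (747 / 10000) (2212 / 10000 - 1) (2212 / 10000)
        ?_ ?_ ?_ ?_).trans ?_
      · rw [abs_le]; norm_num
      · rw [abs_le]; norm_num
      · rw [abs_le]; norm_num
      · rw [abs_le]; norm_num
      · norm_num
    have h6 : dist ((747 / 10000 : ℝ) • (p a + p b) + (2212 / 10000 : ℝ) •
        (p c + p e)) (p e) ≤ 8165 / 10000 := by
      rw [dist_eq_norm]
      refine nle (by norm_num) ?_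
      rw [show (747 / 10000 : ℝ) • (p a + p b) + (2212 / 10000 : ℝ) •
        (p c + p e) - p e = (747 / 10000 : ℝ) • p a + (747 / 10000 : ℝ) • p b
          + (2212 / 10000 : ℝ) • p c + (2212 / 10000 - 1 : ℝ) • p e by module]
      refine (N (747 / 10000) (747 / 10000) (2212 / 10000) (2212 / 10000 - 1)
        ?_ ?_ ?_ ?_).trans ?_
      · rw [abs_le]; norm_num
      · rw [abs_le]; norm_num
      · rw [abs_le]; norm_num
      · rw [abs_le]; norm_num
      · norm_num
    linarith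

theorem join {p : Fin n → E d} {S S' : Finset (Fin n)} {x y : ℝ} (hd : Disjoint S S')
    (h : ∃ t : BT (Fin n) (E d), t.ok ∧ t.lv = S ∧ C p t ≤ x)
    (h' : ∃ t : BT (Fin n) (E d), t.ok ∧ t.lv = S' ∧ C p t ≤ y) :
    ∃ t : BT (Fin n) (E d), t.ok ∧ t.lv = S ∪ S' ∧ C p t ≤ x + y := by
  obtain ⟨t, h1, h2, h3⟩ := h
  obtain ⟨t', k1, k2, k3⟩ := h'
  refine ⟨.node 0 t t', ⟨h1, k1, ?_⟩, ?_, ?_⟩
  · rw [h2, k2]
    exact hd
  · show t.lv ∪ t'.lv = S ∪ S'
    rw [h2, k2]
  · rw [C_node]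
    exact add_le_add h3 k3

theorem one {p : Fin n → E d} (hp : NO p) (a : Fin n) :
    ∃ t : BT (Fin n) (E d), t.ok ∧ t.lv = {a} ∧ C p t ≤ 1 :=
  ⟨.leaf a, trivial, rfl, (C_leaf hp a).le⟩

theorem all {p : Fin n → E d} (hp : NO p) : ∀ m : ℕ, ∀ S : Finset (Fin n), S.card = m → 1 ≤ m →
    ∃ t : BT (Fin n) (E d), t.ok ∧ t.lv = S ∧ C p t ≤ 954 / 1000 * m + 138 / 1000 := by
  intro m
  induction m using Nat.strong_induction_on with
  | _ m ih =>
    intro S hS hn
    rcases lt_or_ge m 4 with h4 | h4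
    · have key : m = 1 ∨ m = 2 ∨ m = 3 := by omega
      rcases key with rfl | rfl | rfl
      · obtain ⟨a, rfl⟩ := Finset.card_eq_one.1 hS
        obtain ⟨t, h1, h2, h3⟩ := one hp a
        exact ⟨t, h1, h2, h3.trans (by norm_num)⟩
      · obtain ⟨a, b, hab, rfl⟩ := Finset.card_eq_two.1 hS
        obtain ⟨t, h1, h2, h3⟩ := join (by simpa using hab) (one hp a) (one hp b)
        exact ⟨t, h1, by rw [h2]; rfl, h3.trans (by norm_num)⟩
      · obtain ⟨a, b, c, hab, hac, hbc, rfl⟩ := Finset.card_eq_three.1 hS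
        obtain ⟨t, h1, h2, h3⟩ := join (S := {a}) (S' := {b} ∪ {c}) (by simp [hab, hac]) (one hp a)
          (join (by simpa using hbc) (one hp b) (one hp c))
        exact ⟨t, h1, by rw [h2]; rfl, h3.trans (by norm_num)⟩
    · obtain ⟨T, hT, hc⟩ := Finset.exists_subset_card_eq (s := S) (n := 4) (by omega)
      obtain ⟨a, T', ha, rfl, hc'⟩ := Finset.card_eq_succ.1 hc
      obtain ⟨b, c, e, hbc, hbe, hce, rfl⟩ := Finset.card_eq_three.1 hc'
      simp only [Finset.mem_insert, Finset.mem_singleton, not_or] at ha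
      have F := four hp ha.1 ha.2.1 ha.2.2 hbc hbe hce
      rcases eq_or_lt_of_le h4 with h | h
      · have : ({a, b, c, e} : Finset (Fin n)) = S :=
          Finset.eq_of_subset_of_card_le hT (by rw [hc]; omega)
        obtain ⟨t, h1, h2, h3⟩ := F
        refine ⟨t, h1, h2.trans this, h3.trans ?_⟩
        rw [← h]
        norm_num
      · have hcard : (S \ {a, b, c, e}).card = m - 4 := by
          rw [Finset.card_sdiff_of_subset hT, hc, hS]
        obtain ⟨t, h1, h2, h3⟩ := join (Finset.disjoint_sdiff) F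
          (ih (m - 4) (by omega) (S \ {a, b, c, e}) hcard (by omega))
        refine ⟨t, h1, ?_, h3.trans ?_⟩
        · rw [h2, Finset.union_sdiff_of_subset hT]
        · have : ((m - 4 : ℕ) : ℝ) = m - 4 := by
            rw [Nat.cast_sub h4]
            norm_num
          rw [this]
          linarith

end UPr

theorem up : LX_UP := by
  intro d n p hp i0 hd
  obtain ⟨t, h1, h2, h3⟩ := UPr.all hp (n - 1) (Finset.univ.erase i0)
    (by rw [Finset.card_erase_of_mem (Finset.mem_univ _), Finset.card_univ, Fintype.card_fin])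
    (by omega)
  refine ⟨t, ⟨h1, h2⟩, ?_⟩
  have e : ((n - 1 : ℕ) : ℝ) = n - 1 := by
    rw [Nat.cast_sub (by omega)]
    norm_num
  rw [e] at h3
  have tri := dist_triangle (p i0) 0 (t.pos p)
  rw [dist_zero_right, hp.nrm] at tri
  have hn : (2 : ℝ) ≤ n := by exact_mod_cast hd
  unfold tot
  unfold UPr.C at h3
  linarith

end LX
end H11ST
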